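import Pool.Agent.helper41.G5.Spec

set_option autoImplicit false

namespace DH5

open Finset

section A

variable {V H : Type} [NormedAddCommGroup V] [InnerProductSpace ℝ V] [FiniteDimensional ℝ V]
  [NormedAddCommGroup H] [InnerProductSpace ℝ H] [CompleteSpace H] [CompleteSpace V]

theorem TD_tr1 (S : V →L[ℝ] H) (t : ℕ) (ht : 1 ≤ t) :
    ‖S‖ ^ (2 * t) ≤ LinearMap.trace ℝ V (((ContinuousLinearMap.adjoint S ∘L S) ^ t : V →L[ℝ] V) : V →ₗ[ℝ] V) := by
  set B : V →L[ℝ] V := ContinuousLinearMap.adjoint S ∘L S with hB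
  have hin : ∀ v w : V, inner ℝ (B v) w = inner ℝ (S v) (S w) := by
    intro v w
    rw [hB]
    simp [ContinuousLinearMap.adjoint_inner_left]
  have hin2 : ∀ v w : V, inner ℝ v (B w) = inner ℝ (S v) (S w) := by
    intro v w
    rw [hB]
    simp [ContinuousLinearMap.adjoint_inner_right]
  have hsym : (B : V →ₗ[ℝ] V).IsSymmetric := by
    intro v w
    simp only [ContinuousLinearMap.coe_coe]
    rw [hin, hin2]
  set n := Module.finrank ℝ V with hn
  set b := hsym.eigenvectorBasis hn.symm with hb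
  set lam := hsym.eigenvalues hn.symm with hlam
  have hBb : ∀ i, B (b i) = lam i • b i := by
    intro i
    exact hsym.apply_eigenvectorBasis hn.symm i
  have hpow : ∀ (k : ℕ) (i : Fin n), (B ^ k) (b i) = lam i ^ k • b i := by
    intro k
    induction k with
    | zero => intro i; simp
    | succ k ih =>
        intro i
        rw [pow_succ]
        show (B ^ k) (B (b i)) = _
        rw [hBb, map_smul, ih, smul_smul, pow_succ, mul_comm]
  have hnn : ∀ i, 0 ≤ lam i := by
    intro i
    have h1 : inner ℝ (b i) (B (b i)) = lam i := by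
      rw [hBb, inner_smul_right, real_inner_self_eq_norm_sq, b.norm_eq_one]; simp
    rw [← h1, hin2]
    exact real_inner_self_nonneg
  have htr : LinearMap.trace ℝ V ((B ^ t : V →L[ℝ] V) : V →ₗ[ℝ] V) = ∑ i, lam i ^ t := by
    rw [LinearMap.trace_eq_sum_inner _ b]
    apply Finset.sum_congr rfl
    intro i _
    rw [ContinuousLinearMap.coe_coe, hpow, inner_smul_right, real_inner_self_eq_norm_sq, b.norm_eq_one]
    simp
  rw [htr]
  rcases Nat.eq_zero_or_pos n with h0 | hpos
  · have hsub : Subsingleton V := by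
      rw [← Module.finrank_zero_iff (R := ℝ)]
      rw [← hn]; exact h0
    have hS : S = 0 := by
      ext v
      rw [Subsingleton.elim v 0]; simp
    rw [hS, norm_zero, zero_pow (by omega)]
    exact Finset.sum_nonneg fun i _ => pow_nonneg (hnn i) _
  · have : Nonempty (Fin n) := ⟨⟨0, hpos⟩⟩
    obtain ⟨i0, hi0⟩ := Finite.exists_max lam
    have hbd : ∀ v, ‖S v‖ ≤ Real.sqrt (lam i0) * ‖v‖ := by
      intro v
      have h1 : ‖S v‖ ^ 2 = ∑ i, lam i * (inner ℝ (b i) v) ^ 2 := by
        rw [← real_inner_self_eq_norm_sq, ← hin2, ← b.sum_inner_mul_inner]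
        apply Finset.sum_congr rfl
        intro i _
        have h2 : inner ℝ (b i) (B v) = lam i * inner ℝ (b i) v := by
          rw [hin2, ← hin, hBb, inner_smul_left]; simp
        rw [h2, real_inner_comm]
        ring
      have h3 : ‖v‖ ^ 2 = ∑ i, (inner ℝ (b i) v) ^ 2 := by
        rw [← real_inner_self_eq_norm_sq, ← b.sum_inner_mul_inner]
        apply Finset.sum_congr rfl
        intro i _
        rw [real_inner_comm]
        ring
      have h4 : ‖S v‖ ^ 2 ≤ lam i0 * ‖v‖ ^ 2 := by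
        rw [h1, h3, Finset.mul_sum]
        exact Finset.sum_le_sum fun i _ => mul_le_mul_of_nonneg_right (hi0 i) (sq_nonneg _)
      have h5 : (Real.sqrt (lam i0) * ‖v‖) ^ 2 = lam i0 * ‖v‖ ^ 2 := by
        rw [mul_pow, Real.sq_sqrt (hnn i0)]
      rw [← h5] at h4
      exact le_of_sq_le_sq h4 (by positivity)
    have hS : ‖S‖ ≤ Real.sqrt (lam i0) := S.opNorm_le_bound (Real.sqrt_nonneg _) hbd
    calc ‖S‖ ^ (2 * t) ≤ (Real.sqrt (lam i0)) ^ (2 * t) := pow_le_pow_left₀ (norm_nonneg _) hS _
      _ = lam i0 ^ t := by rw [pow_mul, Real.sq_sqrt (hnn i0)]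
      _ ≤ ∑ i, lam i ^ t := Finset.single_le_sum (f := fun i => lam i ^ t) (fun i _ => pow_nonneg (hnn i) _) (Finset.mem_univ i0)

theorem TD_tr2 (P X : V →L[ℝ] V) (D : ℕ) (hid : P.comp P = P) (hsa : ∀ v w, inner ℝ (P v) w = inner ℝ v (P w))
    (hrk : Module.finrank ℝ (LinearMap.range ((P : V →L[ℝ] V) : V →ₗ[ℝ] V)) ≤ D) (hX : P * X = X) :
    |LinearMap.trace ℝ V (X : V →ₗ[ℝ] V)| ≤ D * ‖X‖ := by
  have hsym : (P : V →ₗ[ℝ] V).IsSymmetric := fun v w => hsa v w
  set n := Module.finrank ℝ V with hn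
  set b := hsym.eigenvectorBasis hn.symm with hb
  set mu := hsym.eigenvalues hn.symm with hmu
  have hPb : ∀ i, P (b i) = mu i • b i := by
    intro i
    exact hsym.apply_eigenvectorBasis hn.symm i
  have hPP : ∀ v, P (P v) = P v := by
    intro v
    have := congrArg (fun Q : V →L[ℝ] V => Q v) hid
    simpa using this
  have hnn : ∀ i, 0 ≤ mu i := by
    intro i
    have h1 : inner ℝ (b i) (P (b i)) = mu i := by
      rw [hPb, inner_smul_right, real_inner_self_eq_norm_sq, b.norm_eq_one]; simp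
    rw [← h1, ← hPP, ← hsa]
    exact real_inner_self_nonneg
  have htrP : LinearMap.trace ℝ V (P : V →ₗ[ℝ] V) = ∑ i, mu i := by
    rw [LinearMap.trace_eq_sum_inner _ b]
    apply Finset.sum_congr rfl
    intro i _
    rw [ContinuousLinearMap.coe_coe, hPb, inner_smul_right, real_inner_self_eq_norm_sq, b.norm_eq_one]
    simp
  have hidl : IsIdempotentElem (P : V →ₗ[ℝ] V) := by
    unfold IsIdempotentElem
    ext v
    simp [hPP]
  have htrP2 : LinearMap.trace ℝ V (P : V →ₗ[ℝ] V) = (Module.finrank ℝ (LinearMap.range ((P : V →L[ℝ] V) : V →ₗ[ℝ] V)) : ℝ) :=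
    (LinearMap.IsIdempotentElem.isProj_range _ hidl).trace
  have hsum : ∑ i, mu i ≤ D := by
    rw [← htrP, htrP2]
    exact_mod_cast hrk
  rw [LinearMap.trace_eq_sum_inner _ b]
  have h1 : ∀ i, inner ℝ (b i) ((X : V →ₗ[ℝ] V) (b i)) = mu i * inner ℝ (b i) (X (b i)) := by
    intro i
    rw [ContinuousLinearMap.coe_coe]
    have e : X (b i) = P (X (b i)) := by
      have := congrArg (fun Q : V →L[ℝ] V => Q (b i)) hX
      simpa using this.symm
    conv_lhs => rw [e]
    rw [← hsa, hPb, inner_smul_left]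
    simp
  calc |∑ i, inner ℝ (b i) ((X : V →ₗ[ℝ] V) (b i))| ≤ ∑ i, |inner ℝ (b i) ((X : V →ₗ[ℝ] V) (b i))| :=
        Finset.abs_sum_le_sum_abs _ _
    _ ≤ ∑ i, mu i * ‖X‖ := by
        apply Finset.sum_le_sum
        intro i _
        rw [h1, abs_mul, abs_of_nonneg (hnn i)]
        apply mul_le_mul_of_nonneg_left _ (hnn i)
        calc |inner ℝ (b i) (X (b i))| ≤ ‖b i‖ * ‖X (b i)‖ := abs_real_inner_le_norm _ _
          _ ≤ 1 * (‖X‖ * 1) := by
            rw [b.norm_eq_one]
            gcongr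
            calc ‖X (b i)‖ ≤ ‖X‖ * ‖b i‖ := X.le_opNorm _
              _ = ‖X‖ * 1 := by rw [b.norm_eq_one]
          _ = ‖X‖ := by ring
    _ = (∑ i, mu i) * ‖X‖ := by rw [Finset.sum_mul]
    _ ≤ D * ‖X‖ := mul_le_mul_of_nonneg_right hsum (norm_nonneg _)

theorem TD_nP (P : V →L[ℝ] V) (hid : P.comp P = P) (hsa : ∀ v w, inner ℝ (P v) w = inner ℝ v (P w)) : ‖P‖ ≤ 1 := by
  refine P.opNorm_le_bound zero_le_one fun v => ?_
  rw [one_mul]
  have hPP : P (P v) = P v := by
    have := congrArg (fun Q : V →L[ℝ] V => Q v) hid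
    simpa using this
  have h1 : ‖P v‖ ^ 2 ≤ ‖v‖ * ‖P v‖ := by
    rw [← real_inner_self_eq_norm_sq, hsa, hPP]
    exact real_inner_le_norm _ _
  rcases eq_or_lt_of_le (norm_nonneg (P v)) with h | h
  · rw [← h]; exact norm_nonneg _
  · nlinarith

end A

section C

theorem TD_exp {R : Type} [Ring R] [Algebra ℝ R] {K : Type} [Fintype K] (s : K → ℝ) (A : K → R) : ∀ t : ℕ,
    (∑ k, s k • A k) ^ t = ∑ w : Fin t → K, (∏ l, s (w l)) • (List.ofFn (fun l => A (w l))).prod
  | 0 => by simp
  | t + 1 => by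
      rw [pow_succ', TD_exp s A t, Finset.sum_mul_sum, ← (Fin.consEquiv (fun _ => K)).sum_comp, Fintype.sum_prod_type]
      apply Finset.sum_congr rfl
      intro k _
      apply Finset.sum_congr rfl
      intro w _
      simp [Fin.consEquiv, Fin.prod_univ_succ, List.ofFn_succ, smul_smul, mul_comm]

end C

section D

theorem TD_sgx (a b : Bool) : sg (a == b) = sg a * sg b := by
  cases a <;> cases b <;> simp [sg]

theorem TD_sg2 (a : Bool) : sg a * sg a = 1 := by
  cases a <;> simp [sg]

theorem TD_sum {E : Type} [Fintype E] [DecidableEq E] (W : (E → Bool) → ℝ)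
    (h1 : ∀ ε ε', W (fun e => ε e == ε' e) = W ε * W ε') (h2 : ∀ ε, W ε * W ε = 1) : 0 ≤ ∑ ε, W ε := by
  by_cases h : ∀ ε, W ε = 1
  · simp [h]
  · push Not at h
    obtain ⟨ε', hε'⟩ := h
    have hm : W ε' = -1 := by
      have := h2 ε'
      have h3 : (W ε' - 1) * (W ε' + 1) = 0 := by ring_nf; rw [pow_two]; linarith
      rcases mul_eq_zero.1 h3 with h4 | h4
      · exact absurd (by linarith) hε'
      · linarith
    have hbij : Function.Bijective (fun (ε : E → Bool) (e : E) => (ε e == ε' e)) := by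
      apply Function.Involutive.bijective
      intro ε
      funext e
      show ((ε e == ε' e) == ε' e) = ε e
      cases ε e <;> cases ε' e <;> rfl
    have h5 : ∑ ε : E → Bool, W ε = ∑ ε : E → Bool, W (fun e => ε e == ε' e) :=
      (hbij.sum_comp (fun ε => W ε)).symm
    simp only [h1, hm] at h5
    rw [← Finset.sum_mul] at h5
    linarith

end D

section F

variable {J V : Type} [Fintype J] [DecidableEq J] [NormedAddCommGroup V] [InnerProductSpace ℝ V] [FiniteDimensional ℝ V]

/-- the invariant of a word -/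
def TD_Good (P : J → V →L[ℝ] V) (c : ℝ) (A : V →L[ℝ] V) (E : Matrix J J ℝ) (n : ℕ) : Prop :=
  (A = 0 ∧ E = 0) ∨ ∃ j j', E = Matrix.single j j' 1 ∧ P j * A = A ∧ A * P j' = A ∧ ‖A‖ ≤ c ^ (2 * n)

omit [FiniteDimensional ℝ V] in
theorem TD_mul (P : J → V →L[ℝ] V) (D : ℕ) (hP : PF P D) (c : ℝ) (hc : 0 ≤ c) (A A' : V →L[ℝ] V) (E E' : Matrix J J ℝ) (n n' : ℕ)
    (h : TD_Good P c A E n) (h' : TD_Good P c A' E' n') : TD_Good P c (A * A') (E * E') (n + n') := by
  rcases h with ⟨h1, h2⟩ | ⟨j, j', h1, h2, h3, h4⟩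
  · left; simp [h1, h2]
  rcases h' with ⟨g1, g2⟩ | ⟨k, k', g1, g2, g3, g4⟩
  · left; simp [g1, g2]
  by_cases hjk : j' = k
  · right
    subst hjk
    refine ⟨j, k', ?_, ?_, ?_, ?_⟩
    · rw [h1, g1, Matrix.single_mul_single_same, one_mul]
    · rw [← mul_assoc, h2]
    · rw [mul_assoc, g3]
    · calc ‖A * A'‖ ≤ ‖A‖ * ‖A'‖ := norm_mul_le _ _
        _ ≤ c ^ (2 * n) * c ^ (2 * n') := mul_le_mul h4 g4 (norm_nonneg _) (by positivity)
        _ = c ^ (2 * (n + n')) := by rw [← pow_add]; congr 1; ring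
  · left
    constructor
    · have h0 : P j' * P k = 0 := hP.orth j' k hjk
      calc A * A' = (A * P j') * (P k * A') := by rw [h3, g2]
        _ = A * (P j' * P k) * A' := by simp only [mul_assoc]
        _ = 0 := by rw [h0]; simp
    · rw [h1, g1]
      simp [hjk]

theorem TD_tr (P : J → V →L[ℝ] V) (D : ℕ) (hP : PF P D) (c : ℝ) (A : V →L[ℝ] V) (E : Matrix J J ℝ) (n : ℕ)
    (h : TD_Good P c A E n) : LinearMap.trace ℝ V (A : V →ₗ[ℝ] V) ≤ D * c ^ (2 * n) * Matrix.trace E := by
  rcases h with ⟨h1, h2⟩ | ⟨j, j', h1, h2, h3, h4⟩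
  · rw [h1, h2]; simp
  by_cases hj : j = j'
  · subst hj
    rw [h1, Matrix.trace_single_eq_same, mul_one]
    have : CompleteSpace V := FiniteDimensional.complete ℝ V
    refine le_trans (le_abs_self _) (le_trans (TD_tr2 (P j) A D (hP.idem j) (hP.sa j) (hP.rk j) h2) ?_)
    exact mul_le_mul_of_nonneg_left h4 (Nat.cast_nonneg _)
  · rw [h1, Matrix.trace_single_eq_of_ne _ _ _ hj, mul_zero]
    have h0 : P j' * P j = 0 := hP.orth j' j (Ne.symm hj)
    have e : (A : V →ₗ[ℝ] V) = (P j : V →ₗ[ℝ] V) * (A : V →ₗ[ℝ] V) := by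
      conv_lhs => rw [← h2]
      rfl
    rw [e, LinearMap.trace_mul_comm]
    have e2 : (A : V →ₗ[ℝ] V) * (P j : V →ₗ[ℝ] V) = ((A * P j : V →L[ℝ] V) : V →ₗ[ℝ] V) := rfl
    rw [e2]
    have e3 : A * P j = 0 := by rw [← h3, mul_assoc, h0, mul_zero]
    rw [e3]; simp

omit [FiniteDimensional ℝ V] in
theorem TD_word (P : J → V →L[ℝ] V) (D : ℕ) (hP : PF P D) (c : ℝ) (hc : 0 ≤ c) {K : Type} (A : K → V →L[ℝ] V) (E : K → Matrix J J ℝ)
    (h : ∀ k, TD_Good P c (A k) (E k) 1) : ∀ (t : ℕ) (w : Fin (t + 1) → K),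
    TD_Good P c (List.ofFn (fun l => A (w l))).prod (List.ofFn (fun l => E (w l))).prod (t + 1)
  | 0, w => by simpa using h (w 0)
  | t + 1, w => by
      rw [List.ofFn_succ, List.prod_cons, List.ofFn_succ (f := fun l => E (w l)), List.prod_cons]
      have h1 := TD_mul P D hP c hc _ _ _ _ 1 (t + 1) (h (w 0)) (TD_word P D hP c hc A E h t (fun l => w l.succ))
      have e : 1 + (t + 1) = t + 1 + 1 := by omega
      rw [e] at h1
      exact h1

end F

open Classical in
theorem TD : TD_stmt := by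
  intro ι Z J _ _ _ _ _ _ V H _ _ _ _ _ _ P T touch D t c ht hc hP hT horth hnt
  have hV : CompleteSpace V := FiniteDimensional.complete ℝ V
  let K : Type := Z × ι × ι × J × J
  let s : (ι × Z → Bool) → K → ℝ := fun ε k => sg (ε (k.2.1, k.1)) * sg (ε (k.2.2.1, k.1))
  let A : K → V →L[ℝ] V := fun k => P k.2.2.2.1 * (ContinuousLinearMap.adjoint (T k.2.1 k.1) ∘L T k.2.2.1 k.1) * P k.2.2.2.2
  let x : K → ℝ := fun k => (if touch k.2.1 k.1 k.2.2.2.1 then 1 else 0) * (if touch k.2.2.1 k.1 k.2.2.2.2 then 1 else 0)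
  let E : K → Matrix J J ℝ := fun k => Matrix.single k.2.2.2.1 k.2.2.2.2 (x k)
  have hPid : ∀ j, P j * P j = P j := fun j => hP.idem j
  -- letters
  have hgood : ∀ k, TD_Good P c (A k) (E k) 1 := by
    rintro ⟨z, i, i', j, j'⟩
    by_cases h1 : touch i z j
    · by_cases h2 : touch i' z j'
      · right
        refine ⟨j, j', ?_, ?_, ?_, ?_⟩
        · simp [E, x, h1, h2]
        · simp only [A]
          rw [← mul_assoc, ← mul_assoc, hPid]
        · simp only [A]
          rw [mul_assoc, hPid]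
        · simp only [A]
          have n1 : ‖P j‖ ≤ 1 := TD_nP _ (hP.idem j) (hP.sa j)
          have n2 : ‖P j'‖ ≤ 1 := TD_nP _ (hP.idem j') (hP.sa j')
          have n3 : ‖ContinuousLinearMap.adjoint (T i z) ∘L T i' z‖ ≤ c * c := by
            calc ‖ContinuousLinearMap.adjoint (T i z) ∘L T i' z‖ ≤ ‖ContinuousLinearMap.adjoint (T i z)‖ * ‖T i' z‖ :=
                  ContinuousLinearMap.opNorm_comp_le _ _
              _ ≤ c * c := by
                  rw [LinearIsometryEquiv.norm_map]
                  exact mul_le_mul (hT i z) (hT i' z) (norm_nonneg _) hc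
          calc ‖P j * (ContinuousLinearMap.adjoint (T i z) ∘L T i' z) * P j'‖ ≤ ‖P j * (ContinuousLinearMap.adjoint (T i z) ∘L T i' z)‖ * ‖P j'‖ := norm_mul_le _ _
            _ ≤ (‖P j‖ * ‖ContinuousLinearMap.adjoint (T i z) ∘L T i' z‖) * ‖P j'‖ := by
                gcongr
                exact norm_mul_le _ _
            _ ≤ (1 * (c * c)) * 1 := by gcongr
            _ = c ^ (2 * 1) := by ring
      · left
        constructor
        · simp only [A]
          have h0 : T i' z ∘L P j' = 0 := hnt i' z j' h2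
          ext v
          have h3 : T i' z (P j' v) = 0 := by
            have := congrArg (fun Q : V →L[ℝ] H => Q v) h0
            simpa using this
          show P j (ContinuousLinearMap.adjoint (T i z) (T i' z (P j' v))) = 0
          rw [h3]; simp
        · simp [E, x, h2]
    · left
      constructor
      · simp only [A]
        have h0 : T i z ∘L P j = 0 := hnt i z j h1
        ext v
        show P j (ContinuousLinearMap.adjoint (T i z) (T i' z (P j' v))) = 0
        apply ext_inner_left ℝ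
        intro w
        rw [← hP.sa, ContinuousLinearMap.adjoint_inner_right]
        have h3 : T i z (P j w) = 0 := by
          have := congrArg (fun Q : V →L[ℝ] H => Q w) h0
          simpa using this
        rw [h3]; simp
      · simp [E, x, h1]
  -- the operator
  have hop : ∀ ε : ι × Z → Bool, ContinuousLinearMap.adjoint (∑ e : ι × Z, sg (ε e) • T e.1 e.2) ∘L (∑ e : ι × Z, sg (ε e) • T e.1 e.2) = ∑ k, s ε k • A k := by
    intro ε
    have hPs : ∀ v, ∑ j, P j v = v := by
      intro v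
      have := congrArg (fun Q : V →L[ℝ] V => Q v) hP.sum
      simpa using this
    have hin : ∀ v w, inner ℝ ((∑ e : ι × Z, sg (ε e) • T e.1 e.2) v) ((∑ e : ι × Z, sg (ε e) • T e.1 e.2) w) =
        ∑ z, ∑ i, ∑ i', sg (ε (i, z)) * sg (ε (i', z)) * inner ℝ (T i' z v) (T i z w) := by
      intro v w
      have e1 : ∀ u, (∑ e : ι × Z, sg (ε e) • T e.1 e.2) u = ∑ z, ∑ i, sg (ε (i, z)) • T i z u := by
        intro u
        rw [ContinuousLinearMap.sum_apply, Fintype.sum_prod_type, Finset.sum_comm]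
        rfl
      rw [e1, e1, sum_inner]
      apply Finset.sum_congr rfl
      intro z _
      rw [inner_sum, Finset.sum_eq_single z]
      · rw [inner_sum]
        apply Finset.sum_congr rfl
        intro i _
        rw [sum_inner]
        apply Finset.sum_congr rfl
        intro i' _
        rw [inner_smul_left, inner_smul_right]
        simp only [conj_trivial]
        ring
      · intro z' _ hz'
        rw [sum_inner]
        apply Finset.sum_eq_zero
        intro i _
        rw [inner_sum]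
        apply Finset.sum_eq_zero
        intro i' _
        rw [inner_smul_left, inner_smul_right, horth i i' z z' (Ne.symm hz')]
        simp
      · intro h; exact absurd (Finset.mem_univ _) h
    ext v
    apply ext_inner_right ℝ
    intro w
    have hl : inner ℝ ((ContinuousLinearMap.adjoint (∑ e : ι × Z, sg (ε e) • T e.1 e.2) ∘L (∑ e : ι × Z, sg (ε e) • T e.1 e.2)) v) w =
        inner ℝ ((∑ e : ι × Z, sg (ε e) • T e.1 e.2) v) ((∑ e : ι × Z, sg (ε e) • T e.1 e.2) w) := by
      show inner ℝ (ContinuousLinearMap.adjoint (∑ e : ι × Z, sg (ε e) • T e.1 e.2) ((∑ e : ι × Z, sg (ε e) • T e.1 e.2) v)) w = _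
      rw [ContinuousLinearMap.adjoint_inner_left]
    rw [hl, hin, ContinuousLinearMap.sum_apply, sum_inner]
    simp only [K, Fintype.sum_prod_type]
    apply Finset.sum_congr rfl
    intro z _
    apply Finset.sum_congr rfl
    intro i _
    apply Finset.sum_congr rfl
    intro i' _
    have hk : ∀ j j', inner ℝ ((s ε (z, i, i', j, j') • A (z, i, i', j, j')) v) w =
        sg (ε (i, z)) * sg (ε (i', z)) * inner ℝ (T i' z (P j' v)) (T i z (P j w)) := by
      intro j j'
      show inner ℝ ((sg (ε (i, z)) * sg (ε (i', z))) • (P j (ContinuousLinearMap.adjoint (T i z) (T i' z (P j' v))))) w = _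
      rw [inner_smul_left, hP.sa, ContinuousLinearMap.adjoint_inner_left]
      simp
    simp only [hk]
    conv_lhs => rw [← hPs v, ← hPs w]
    rw [map_sum, map_sum, inner_sum, Finset.mul_sum]
    apply Finset.sum_congr rfl
    intro j _
    rw [sum_inner, Finset.mul_sum]
  have hma : ∀ ε : ι × Z → Bool, (am touch ε).transpose * am touch ε = ∑ k, s ε k • E k := by
    intro ε
    ext j j'
    rw [Matrix.mul_apply, Matrix.sum_apply]
    simp only [K, Fintype.sum_prod_type]
    apply Finset.sum_congr rfl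
    intro z _
    rw [Matrix.transpose_apply]
    unfold am
    rw [Finset.sum_mul_sum]
    apply Finset.sum_congr rfl
    intro i _
    apply Finset.sum_congr rfl
    intro i' _
    rw [Finset.sum_eq_single j, Finset.sum_eq_single j']
    · simp only [s, E, x, Matrix.smul_apply, Matrix.single_apply_same, smul_eq_mul]
      ring
    · intro j1 _ hj1
      simp [E, Matrix.single_apply, hj1]
    · intro h; exact absurd (Finset.mem_univ _) h
    · intro j1 _ hj1
      apply Finset.sum_eq_zero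
      intro j2 _
      simp [E, Matrix.single_apply, hj1]
    · intro h; exact absurd (Finset.mem_univ _) h
  -- words
  obtain ⟨t', rfl⟩ : ∃ t', t = t' + 1 := ⟨t - 1, by omega⟩
  set t := t' + 1 with htt
  let W : (Fin t → K) → (ι × Z → Bool) → ℝ := fun w ε => ∏ l, s ε (w l)
  have hW : ∀ w, 0 ≤ ∑ ε, W w ε := by
    intro w
    apply TD_sum
    · intro ε ε'
      simp only [W, s, TD_sgx]
      rw [← Finset.prod_mul_distrib]
      apply Finset.prod_congr rfl
      intro l _
      ring
    · intro ε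
      simp only [W, s]
      rw [← Finset.prod_mul_distrib]
      apply Finset.prod_eq_one
      intro l _
      have e1 := TD_sg2 (ε ((w l).2.1, (w l).1))
      have e2 := TD_sg2 (ε ((w l).2.2.1, (w l).1))
      calc _ = (sg (ε ((w l).2.1, (w l).1)) * sg (ε ((w l).2.1, (w l).1))) * (sg (ε ((w l).2.2.1, (w l).1)) * sg (ε ((w l).2.2.1, (w l).1))) := by ring
        _ = 1 := by rw [e1, e2]; norm_num
  have h1 : ∀ ε : ι × Z → Bool, ‖∑ e : ι × Z, sg (ε e) • T e.1 e.2‖ ^ (2 * t) ≤
      ∑ w : Fin t → K, W w ε * LinearMap.trace ℝ V (((List.ofFn (fun l => A (w l))).prod : V →L[ℝ] V) : V →ₗ[ℝ] V) := by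
    intro ε
    refine (TD_tr1 _ t ht).trans (le_of_eq ?_)
    rw [hop, TD_exp]
    rw [ContinuousLinearMap.toLinearMap_sum, map_sum]
    apply Finset.sum_congr rfl
    intro w _
    rw [ContinuousLinearMap.toLinearMap_smul, map_smul, smul_eq_mul]
  have h2 : ∀ ε : ι × Z → Bool, Matrix.trace (((am touch ε).transpose * am touch ε) ^ t) =
      ∑ w : Fin t → K, W w ε * Matrix.trace (List.ofFn (fun l => E (w l))).prod := by
    intro ε
    rw [hma, TD_exp, Matrix.trace_sum]
    apply Finset.sum_congr rfl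
    intro w _
    rw [Matrix.trace_smul, smul_eq_mul]
  unfold av
  simp only [h2]
  calc (Fintype.card (ι × Z → Bool) : ℝ)⁻¹ * ∑ ε : ι × Z → Bool, ‖∑ e : ι × Z, sg (ε e) • T e.1 e.2‖ ^ (2 * t)
      ≤ (Fintype.card (ι × Z → Bool) : ℝ)⁻¹ * ∑ ε : ι × Z → Bool, ∑ w : Fin t → K, W w ε * LinearMap.trace ℝ V (((List.ofFn (fun l => A (w l))).prod : V →L[ℝ] V) : V →ₗ[ℝ] V) := by
        apply mul_le_mul_of_nonneg_left _ (by positivity)
        exact Finset.sum_le_sum fun ε _ => h1 ε
    _ = (Fintype.card (ι × Z → Bool) : ℝ)⁻¹ * ∑ w : Fin t → K, (∑ ε, W w ε) * LinearMap.trace ℝ V (((List.ofFn (fun l => A (w l))).prod : V →L[ℝ] V) : V →ₗ[ℝ] V) := by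
        rw [Finset.sum_comm]
        simp only [Finset.sum_mul]
    _ ≤ (Fintype.card (ι × Z → Bool) : ℝ)⁻¹ * ∑ w : Fin t → K, (∑ ε, W w ε) * (D * c ^ (2 * t) * Matrix.trace (List.ofFn (fun l => E (w l))).prod) := by
        apply mul_le_mul_of_nonneg_left _ (by positivity)
        apply Finset.sum_le_sum
        intro w _
        apply mul_le_mul_of_nonneg_left _ (hW w)
        exact TD_tr P D hP c _ _ t (TD_word P D hP c hc A E hgood t' w)
    _ = D * c ^ (2 * t) * ((Fintype.card (ι × Z → Bool) : ℝ)⁻¹ * ∑ ε : ι × Z → Bool, ∑ w : Fin t → K, W w ε * Matrix.trace (List.ofFn (fun l => E (w l))).prod) := by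
        rw [Finset.sum_comm (s := (Finset.univ : Finset (ι × Z → Bool)))]
        simp only [Finset.mul_sum, Finset.sum_mul]
        apply Finset.sum_congr rfl
        intro w _
        apply Finset.sum_congr rfl
        intro ε _
        ring

end DH5
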